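import Pool.Agent.Helper66.OC.Pre

/-!
# Project OC: the prime `3` and the start
-/

set_option autoImplicit false

namespace Pool.Agent.Helper66.OC

open Finset

theorem frame_triv (S : Finset ℕ) (r : ℕ → ℤ) (hS : ∀ m ∈ S, 2 ≤ m) :
    Frame S r 1 {1} (fun φ => φ 1) 1 := by
  refine ⟨⟨fun _ _ => rfl, fun _ _ => rfl, fun φ ψ h => ?_, rfl⟩, one_pos, ?_, ?_⟩
  · simpa using h 1 le_rfl
  · intro d hd
    rw [mem_singleton.1 hd]
  · refine ⟨Unit, inferInstance, fun _ => 1, fun _ => 0, fun _ => zero_le_one, ?_, ?_, ?_⟩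
    · intro x _ m hm hm1
      have := hS m hm
      rw [mem_singleton] at hm1
      omega
    · intro c φ _
      have : cnt {1} c 0 = 1 := by
        unfold cnt
        rw [Finset.filter_true_of_mem, card_singleton]
        intro m hm
        rw [mem_singleton.1 hm, Nat.cast_one]
        exact Int.modEq_one
      simp [this]
    · simp

theorem Good.shift {φ : ℝ → ℝ} (h : Good φ) : Good (fun z => φ (z + 1)) := by
  refine ⟨⟨convex_Ici 0, ?_⟩, ?_, ?_⟩
  · intro x hx y hy a b ha hb hab
    have hx' : x + 1 ∈ Set.Ici (0 : ℝ) := by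
      have : (0 : ℝ) ≤ x := hx
      exact Set.mem_Ici.2 (by linarith)
    have hy' : y + 1 ∈ Set.Ici (0 : ℝ) := by
      have : (0 : ℝ) ≤ y := hy
      exact Set.mem_Ici.2 (by linarith)
    have := h.conv.2 hx' hy' ha hb hab
    have e : a • (x + 1) + b • (y + 1) = a • x + b • y + 1 := by
      simp only [smul_eq_mul]
      linear_combination hab
    rw [e] at this
    exact this
  · intro x hx y hy hxy
    have hx0 : (0 : ℝ) ≤ x := hx
    have hy0 : (0 : ℝ) ≤ y := hy
    exact h.mono (Set.mem_Ici.2 (by linarith)) (Set.mem_Ici.2 (by linarith)) (by linarith)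
  · have := h.mono (Set.mem_Ici.2 le_rfl) (Set.mem_Ici.2 (by norm_num : (0 : ℝ) ≤ 0 + 1))
      (by norm_num)
    exact h.zero.trans this

theorem frame_three {S : Finset ℕ} {r : ℕ → ℤ} {Q : ℕ} {D : Finset ℕ} {L : (ℝ → ℝ) → ℝ}
    (h : Frame S r Q D L 1) (hQ : Nat.Coprime Q 3) (h3 : 3 ∉ D) :
    Frame S r (Q * 3) (insert 3 D) (fun φ => 1 / 2 * (L φ + L (fun z => φ (z + 1)))) 1 := by
  obtain ⟨hL, hpos, hdvd, X, hX, w, ρ, w0, hcov, hdom, hmass⟩ := h
  refine ⟨⟨?_, ?_, ?_, ?_⟩, by positivity, ?_, ?_⟩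
  · intro φ ψ
    rw [hL.add φ ψ, hL.add (fun z => φ (z + 1)) (fun z => ψ (z + 1))]
    ring
  · intro a φ
    rw [hL.smul a φ, hL.smul a (fun z => φ (z + 1))]
    ring
  · intro φ ψ hφ
    have h1 := hL.mono φ ψ hφ
    have h2 := hL.mono (fun z => φ (z + 1)) (fun z => ψ (z + 1)) fun n hn => by
      have := hφ (n + 1) (by omega)
      push_cast at this
      exact this
    linarith
  · rw [hL.one]
    norm_num
  · intro d hd
    rcases mem_insert.1 hd with rfl | hd
    · exact Dvd.intro_left Q rfl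
    · exact (hdvd d hd).mul_right 3
  · choose z hz1 hz2 using crt Q 3 hQ
    refine ⟨X × Fin 2, inferInstance, fun x => w x.1 / 2,
      fun x => z (ρ x.1) (r 3 + 1 + ((x.2 : ℕ) : ℤ)), fun x => div_nonneg (w0 _) (by norm_num),
      ?_, ?_, ?_⟩
    · rintro ⟨x, y⟩ hw m hmS hm
      have hwx : w x ≠ 0 := fun h0 => hw (by simp [h0])
      rcases mem_insert.1 hm with rfl | hm
      · intro hc
        have h1 := (hz2 (ρ x) (r 3 + 1 + ((y : ℕ) : ℤ))).symm.trans hc
        have h2 := y.2
        rw [Int.modEq_iff_dvd] at h1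
        obtain ⟨k, hk⟩ := h1
        push_cast at hk
        omega
      · intro hc
        have h1 : z (ρ x) (r 3 + 1 + ((y : ℕ) : ℤ)) ≡ ρ x [ZMOD (m : ℤ)] :=
          (hz1 _ _).of_dvd (by exact_mod_cast hdvd m hm)
        exact hcov x hwx m hmS hm (h1.symm.trans hc)
    · intro c φ hφ
      have hcnt : ∀ (x : X) (y : Fin 2), (cnt (insert 3 D) c
          (z (ρ x) (r 3 + 1 + ((y : ℕ) : ℤ))) : ℝ) = (cnt D c (ρ x) : ℝ) +
            (if r 3 + 1 + ((y : ℕ) : ℤ) ≡ c 3 [ZMOD 3] then 1 else 0) := by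
        intro x y
        set a := z (ρ x) (r 3 + 1 + ((y : ℕ) : ℤ)) with ha
        have e1 : cnt D c a = cnt D c (ρ x) := by
          unfold cnt
          refine congrArg Finset.card (Finset.filter_congr fun m hm => ?_)
          have h1 : a ≡ ρ x [ZMOD (m : ℤ)] := (hz1 _ _).of_dvd (by exact_mod_cast hdvd m hm)
          exact ⟨fun h => h1.symm.trans h, fun h => h1.trans h⟩
        have e3 : (a ≡ c 3 [ZMOD ((3 : ℕ) : ℤ)]) ↔ (r 3 + 1 + ((y : ℕ) : ℤ) ≡ c 3 [ZMOD 3]) := by
          have h1 := hz2 (ρ x) (r 3 + 1 + ((y : ℕ) : ℤ))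
          exact ⟨fun h => h1.symm.trans h, fun h => h1.trans h⟩
        rw [← e1]
        unfold cnt
        rw [Finset.filter_insert]
        by_cases hc : r 3 + 1 + ((y : ℕ) : ℤ) ≡ c 3 [ZMOD 3]
        · rw [if_pos (e3.2 hc), if_pos hc, card_insert_of_notMem]
          · push_cast
            ring
          · intro hm
            exact h3 (mem_filter.1 hm).1
        · rw [if_neg (fun h => hc (e3.1 h)), if_neg hc, add_zero]
      have hsum : ∀ x : X, ∑ y : Fin 2, w x / 2 * φ (cnt (insert 3 D) c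
          (z (ρ x) (r 3 + 1 + ((y : ℕ) : ℤ))) : ℝ) ≤
          1 / 2 * (w x * φ (cnt D c (ρ x)) + w x * φ ((cnt D c (ρ x) : ℝ) + 1)) := by
        intro x
        rw [Fin.sum_univ_two, hcnt, hcnt]
        set n : ℝ := (cnt D c (ρ x) : ℝ) with hn
        have hn0 : 0 ≤ n := Nat.cast_nonneg _
        have hmono : φ n ≤ φ (n + 1) :=
          hφ.mono (Set.mem_Ici.2 hn0) (Set.mem_Ici.2 (by linarith)) (by linarith)
        have hw2 : 0 ≤ w x / 2 := div_nonneg (w0 x) (by norm_num)
        have key : φ (n + (if r 3 + 1 + (((0 : Fin 2) : ℕ) : ℤ) ≡ c 3 [ZMOD 3] then 1 else 0)) +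
            φ (n + (if r 3 + 1 + (((1 : Fin 2) : ℕ) : ℤ) ≡ c 3 [ZMOD 3] then 1 else 0)) ≤
            φ n + φ (n + 1) := by
          split_ifs with h1 h2 h2
          · exfalso
            rw [Int.modEq_iff_dvd] at h1 h2
            obtain ⟨k1, e1⟩ := h1
            obtain ⟨k2, e2⟩ := h2
            simp only [Fin.val_zero, Fin.val_one] at e1 e2
            push_cast at e1 e2
            omega
          · rw [add_zero]; linarith
          · rw [add_zero]
          · rw [add_zero]; linarith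
        have := mul_le_mul_of_nonneg_left key hw2
        linarith
      rw [Fintype.sum_prod_type]
      refine (sum_le_sum fun x _ => hsum x).trans ?_
      rw [← mul_sum, sum_add_distrib]
      have h1 := hdom c φ hφ
      have h2 := hdom c _ hφ.shift
      linarith
    · rw [Fintype.sum_prod_type]
      have : ∀ x : X, ∑ _y : Fin 2, w x / 2 = w x := by
        intro x
        rw [Fin.sum_univ_two]
        ring
      simp only [this]
      exact hmass

end Pool.Agent.Helper66.OC
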