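import Pool.Agent.Helper66.OC.Clo

/-!
# Project OC: the tail
-/

set_option autoImplicit false

namespace Pool.Agent.Helper95.OC

open Pool.Agent.Helper66.OC

/-- the primes of `[2^j, N)` -/
def pc (j N : ℕ) : ℕ := ((Finset.Ico (2 ^ j) N).filter Nat.Prime).card

theorem pc_le {j N : ℕ} (hj : 2 ≤ j) (hN : N ≤ 2 ^ (j + 1)) : pc j N * j ≤ 2 * 2 ^ j := by
  set X := 2 ^ j with hX
  set s := (Finset.Ico X N).filter Nat.Prime with hs
  have hnp : ¬ X.Prime := by
    rw [hX]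
    exact Nat.Prime.not_prime_pow hj
  have hmem : ∀ p ∈ s, p.Prime ∧ X < p ∧ p ≤ 2 * X := by
    intro p hp
    obtain ⟨h1, h2⟩ := Finset.mem_filter.1 hp
    obtain ⟨h3, h4⟩ := Finset.mem_Ico.1 h1
    refine ⟨h2, lt_of_le_of_ne h3 ?_, ?_⟩
    · rintro rfl
      exact hnp h2
    · have : 2 ^ (j + 1) = 2 * X := by rw [hX]; ring
      omega
  have hdvd : ∏ p ∈ s, p ∣ (X + X).choose X := by
    refine Finset.prod_primes_dvd _ (fun p hp => (hmem p hp).1.prime) fun p hp => ?_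
    obtain ⟨h1, h2, h3⟩ := hmem p hp
    exact h1.dvd_choose_add h2 h2 (by omega)
  have hle : ∏ p ∈ s, p ≤ 2 ^ (X + X) :=
    (Nat.le_of_dvd (Nat.choose_pos (by omega)) hdvd).trans (Nat.choose_le_two_pow _ _)
  have hpow : X ^ s.card ≤ ∏ p ∈ s, p := by
    rw [← Finset.prod_const]
    exact Finset.prod_le_prod' fun p hp => (hmem p hp).2.1.le
  have h := hpow.trans hle
  rw [hX, ← pow_mul] at h
  have h2 := (Nat.pow_le_pow_iff_right (by norm_num : 1 < 2)).1 h
  change s.card * j ≤ 2 * X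
  rw [mul_comm, hX]
  omega

section

variable {I : ℕ → ℝ → ℝ → Prop}

/-- inside a block -/
theorem inner (h : Clo I) {j : ℕ} (hj : 16 ≤ j) {M C : ℝ} (h0 : I (2 ^ j) M C) (N : ℕ)
    (hN : 2 ^ j ≤ N) :
    I N (M * (1 + 4001 / (1000 * (2 : ℝ) ^ j)) ^ pc j N)
      (C + pc j N * (4001 / (3000 * ((2 : ℝ) ^ j) ^ 2)) *
        (M * (1 + 4001 / (1000 * (2 : ℝ) ^ j)) ^ pc j N)) := by
  have hM : 0 ≤ M := zero_le_one.trans (h.pos _ _ _ h0)
  have hX : (65536 : ℝ) ≤ (2 : ℝ) ^ j := by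
    calc (65536 : ℝ) = 2 ^ 16 := by norm_num
      _ ≤ 2 ^ j := pow_le_pow_right₀ (by norm_num) hj
  have hXn : 65536 ≤ 2 ^ j := by
    calc 65536 = 2 ^ 16 := by norm_num
      _ ≤ 2 ^ j := Nat.pow_le_pow_right (by norm_num) hj
  set β : ℝ := 4001 / (1000 * (2 : ℝ) ^ j) with hβ
  set γ : ℝ := 4001 / (3000 * ((2 : ℝ) ^ j) ^ 2) with hγ
  have hβ0 : 0 ≤ β := by positivity
  have hγ0 : 0 ≤ γ := by positivity
  induction N, hN using Nat.le_induction with
  | base =>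
    have e : pc j (2 ^ j) = 0 := by simp [pc]
    rw [e]
    simpa using h0
  | succ n hn ih =>
    have h7 : 7 ≤ n := by omega
    by_cases hp : n.Prime
    · have e : pc j (n + 1) = pc j n + 1 := by
        unfold pc
        rw [← Finset.insert_Ico_right_eq_Ico_add_one hn, Finset.filter_insert, if_pos hp,
          Finset.card_insert_of_notMem]
        simp
      set c := pc j n with hc
      rw [e]
      have hs := h.step n _ _ h7 hp ih
      have hnR : (2 : ℝ) ^ j ≤ n := by exact_mod_cast hn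
      have hn1 : (0 : ℝ) < (n : ℝ) - 1 := by linarith
      have hb : 4 * (3 * (n : ℝ) - 1) / (3 * ((n : ℝ) - 1) ^ 2) ≤ β := by
        rw [hβ, div_le_div_iff₀ (by positivity) (by positivity)]
        have : 4 * (3 * (n : ℝ) - 1) * (1000 * (2 : ℝ) ^ j) ≤ 4 * (3 * (n : ℝ) - 1) * (1000 * n) :=
          mul_le_mul_of_nonneg_left (by linarith) (by linarith)
        nlinarith
      have hg : 4 / (3 * ((n : ℝ) - 1) ^ 2) ≤ γ := by
        rw [hγ, div_le_div_iff₀ (by positivity) (by positivity)]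
        have : ((2 : ℝ) ^ j - 1) ^ 2 ≤ ((n : ℝ) - 1) ^ 2 :=
          pow_le_pow_left₀ (by linarith) (by linarith) 2
        nlinarith
      have hMc : 0 ≤ M * (1 + β) ^ c := by positivity
      have hM1 : M * (1 + β) ^ c ≤ M * (1 + β) ^ (c + 1) :=
        mul_le_mul_of_nonneg_left (pow_le_pow_right₀ (by linarith) (by omega)) hM
      refine h.mono _ _ _ _ _ ?_ ?_ hs
      · calc M * (1 + β) ^ c * (1 + 4 * (3 * (n : ℝ) - 1) / (3 * ((n : ℝ) - 1) ^ 2)) ≤
            M * (1 + β) ^ c * (1 + β) := mul_le_mul_of_nonneg_left (by linarith) hMc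
          _ = M * (1 + β) ^ (c + 1) := by ring
      · have h1 : 4 * (M * (1 + β) ^ c) / (3 * ((n : ℝ) - 1) ^ 2) ≤ γ * (M * (1 + β) ^ c) := by
          have := mul_le_mul_of_nonneg_right hg hMc
          refine le_trans (le_of_eq ?_) this
          ring
        have h2 : (c : ℝ) * γ * (M * (1 + β) ^ c) + γ * (M * (1 + β) ^ c) ≤
            ((c + 1 : ℕ) : ℝ) * γ * (M * (1 + β) ^ (c + 1)) := by
          have h3 : 0 ≤ ((c + 1 : ℕ) : ℝ) * γ := by positivity
          have := mul_le_mul_of_nonneg_left hM1 h3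
          push_cast at this ⊢
          nlinarith
        linarith
    · have e : pc j (n + 1) = pc j n := by
        unfold pc
        rw [← Finset.insert_Ico_right_eq_Ico_add_one hn, Finset.filter_insert, if_neg hp]
      rw [e]
      exact h.skip n _ _ h7 hp ih

/-- the growth of a block -/
theorem grow {j c : ℕ} (hj : 16 ≤ j) (hc : c * j ≤ 2 * 2 ^ j) :
    (1 + 4001 / (1000 * (2 : ℝ) ^ j)) ^ c ≤ (((j : ℝ) + 1) / j) ^ 9 := by
  have hjR : (16 : ℝ) ≤ j := by exact_mod_cast hj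
  have hX : (0 : ℝ) < (2 : ℝ) ^ j := by positivity
  have hcR : (c : ℝ) * j ≤ 2 * 2 ^ j := by exact_mod_cast hc
  have h1 : (1 + 4001 / (1000 * (2 : ℝ) ^ j)) ^ c ≤
      Real.exp (4001 / (1000 * (2 : ℝ) ^ j)) ^ c := by
    refine pow_le_pow_left₀ (by positivity) ?_ c
    have := Real.add_one_le_exp (4001 / (1000 * (2 : ℝ) ^ j))
    linarith
  rw [← Real.exp_nat_mul] at h1
  have h2 : (c : ℝ) * (4001 / (1000 * (2 : ℝ) ^ j)) ≤ 9 / (j + 1) := by
    rw [mul_div_assoc', div_le_div_iff₀ (by positivity) (by positivity)]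
    have : (c : ℝ) * 4001 * (j + 1) * j ≤ 9 * (1000 * (2 : ℝ) ^ j) * j := by
      have e : (c : ℝ) * 4001 * (j + 1) * j = 4001 * (j + 1) * (c * j) := by ring
      rw [e]
      have := mul_le_mul_of_nonneg_left hcR (by positivity : (0 : ℝ) ≤ 4001 * (j + 1))
      refine this.trans ?_
      have e2 : 9 * (1000 * (2 : ℝ) ^ j) * j - 4001 * (j + 1) * (2 * 2 ^ j) =
          (998 * j - 8002) * 2 ^ j := by ring
      have : 0 ≤ (998 * (j : ℝ) - 8002) * 2 ^ j := mul_nonneg (by linarith) hX.le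
      linarith
    exact le_of_mul_le_mul_right this (by linarith)
  have h3 : Real.exp (9 / (j + 1)) ≤ (((j : ℝ) + 1) / j) ^ 9 := by
    have e : (9 : ℝ) / (j + 1) = (9 : ℕ) * (1 / ((j : ℝ) + 1)) := by push_cast; ring
    rw [e, Real.exp_nat_mul]
    refine pow_le_pow_left₀ (Real.exp_pos _).le ?_ 9
    have h4 := Real.add_one_le_exp (-(1 / ((j : ℝ) + 1)))
    have h5 : -(1 / ((j : ℝ) + 1)) + 1 = j / (j + 1) := by
      field_simp
      ring
    rw [h5, Real.exp_neg] at h4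
    have h6 : (0 : ℝ) < j / (j + 1) := by positivity
    have := inv_anti₀ h6 h4
    rw [inv_inv, inv_div] at this
    exact this
  exact h1.trans ((Real.exp_le_exp.2 h2).trans h3)

/-- the cost of the block -/
noncomputable def w (j : ℕ) : ℝ := 4001 / 1500 * (((j : ℝ) + 1) / 16) ^ 9 / (j * 2 ^ j)

theorem w_ratio {j : ℕ} (hj : 16 ≤ j) : w (j + 1) ≤ 84 / 100 * w j := by
  have hjR : (16 : ℝ) ≤ j := by exact_mod_cast hj
  unfold w
  push_cast
  have h1 : (((j : ℝ) + 1 + 1) / 16) ≤ 18 / 17 * (((j : ℝ) + 1) / 16) := by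
    rw [div_le_iff₀ (by norm_num)]
    ring_nf
    linarith
  have h2 : (((j : ℝ) + 1 + 1) / 16) ^ 9 ≤ 168 / 100 * (((j : ℝ) + 1) / 16) ^ 9 := by
    have h3 := pow_le_pow_left₀ (by positivity) h1 9
    rw [mul_pow] at h3
    refine h3.trans (mul_le_mul_of_nonneg_right (by norm_num) (by positivity))
  have h4 : (0 : ℝ) < j * 2 ^ j := by positivity
  have h5 : 2 * ((j : ℝ) * 2 ^ j) ≤ ((j : ℝ) + 1) * 2 ^ (j + 1) := by
    rw [pow_succ]
    nlinarith [show (0 : ℝ) < 2 ^ j by positivity]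
  calc 4001 / 1500 * (((j : ℝ) + 1 + 1) / 16) ^ 9 / (((j : ℝ) + 1) * 2 ^ (j + 1)) ≤
      4001 / 1500 * (168 / 100 * (((j : ℝ) + 1) / 16) ^ 9) / (2 * ((j : ℝ) * 2 ^ j)) := by
        refine div_le_div₀ (by positivity) (by linarith) (by positivity) h5
    _ = 84 / 100 * (4001 / 1500 * (((j : ℝ) + 1) / 16) ^ 9 / (j * 2 ^ j)) := by
        field_simp
        ring

/-- a block -/
theorem block (h : Clo I) {j : ℕ} (hj : 16 ≤ j) {M C : ℝ} (hM : 0 ≤ M)
    (h0 : I (2 ^ j) (M * ((j : ℝ) / 16) ^ 9) C) {N : ℕ} (hN : 2 ^ j ≤ N)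
    (hN' : N ≤ 2 ^ (j + 1)) :
    I N (M * (((j : ℝ) + 1) / 16) ^ 9) (C + M * w j) := by
  have hjR : (16 : ℝ) ≤ j := by exact_mod_cast hj
  have hc := pc_le (by omega : 2 ≤ j) hN'
  have hg := grow hj hc
  have hcR : (pc j N : ℝ) * j ≤ 2 * 2 ^ j := by exact_mod_cast hc
  have key := inner h hj h0 N hN
  set c := pc j N with hcdef
  have e1 : M * ((j : ℝ) / 16) ^ 9 * ((((j : ℝ) + 1) / j) ^ 9) = M * (((j : ℝ) + 1) / 16) ^ 9 := by
    field_simp
  have h1 : M * ((j : ℝ) / 16) ^ 9 * (1 + 4001 / (1000 * (2 : ℝ) ^ j)) ^ c ≤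
      M * (((j : ℝ) + 1) / 16) ^ 9 := by
    rw [← e1]
    exact mul_le_mul_of_nonneg_left hg (by positivity)
  refine h.mono _ _ _ _ _ h1 ?_ key
  have h2 : (c : ℝ) * (4001 / (3000 * ((2 : ℝ) ^ j) ^ 2)) ≤ 4001 / 1500 / (j * 2 ^ j) := by
    rw [mul_div_assoc', div_div, div_le_div_iff₀ (by positivity) (by positivity)]
    have e : (c : ℝ) * 4001 * (1500 * (j * 2 ^ j)) = 4001 * 1500 * 2 ^ j * (c * j) := by ring
    rw [e]
    have := mul_le_mul_of_nonneg_left hcR (by positivity : (0 : ℝ) ≤ 4001 * 1500 * 2 ^ j)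
    refine this.trans (le_of_eq ?_)
    ring
  have h3 := mul_le_mul h2 h1 (by positivity) (by positivity)
  have e2 : 4001 / 1500 / ((j : ℝ) * 2 ^ j) * (M * (((j : ℝ) + 1) / 16) ^ 9) = M * w j := by
    unfold w
    ring
  linarith

theorem w_16 : 25 / 4 * w 16 ≤ 3 / 100000 := by
  unfold w
  norm_num

theorem w_nonneg (j : ℕ) : 0 ≤ w j := by
  unfold w
  positivity

theorem blocks (h : Clo I) {M C : ℝ} (h0 : I 65536 M C) (j : ℕ) (hj : 16 ≤ j) :
    I (2 ^ j) (M * ((j : ℝ) / 16) ^ 9) (C + M * (25 / 4 * (w 16 - w j))) := by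
  have hM : 0 ≤ M := zero_le_one.trans (h.pos _ _ _ h0)
  induction j, hj using Nat.le_induction with
  | base =>
    have e : (2 : ℕ) ^ 16 = 65536 := by norm_num
    rw [e]
    simpa using h0
  | succ j hj ih =>
    have := block h hj hM ih (N := 2 ^ (j + 1)) (Nat.pow_le_pow_right (by norm_num) (by omega))
      le_rfl
    push_cast
    refine h.mono _ _ _ _ _ le_rfl ?_ this
    have h1 := mul_le_mul_of_nonneg_left (w_ratio hj) hM
    nlinarith

end

end Pool.Agent.Helper95.OC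

namespace Pool.Agent.Helper66.OC

open Pool.Agent.Helper95.OC in
/-- **the tail** -/
theorem tail (I : ℕ → ℝ → ℝ → Prop) (h : Clo I) (M C : ℝ) (h0 : I 65536 M C) (N : ℕ)
    (hN : 65536 ≤ N) : ∃ M', I N M' (C + M * (3 / 100000)) := by
  have hM : 0 ≤ M := zero_le_one.trans (h.pos _ _ _ h0)
  have hN0 : N ≠ 0 := by omega
  set j := Nat.log 2 N with hj
  have h1 : 2 ^ j ≤ N := Nat.pow_log_le_self 2 hN0
  have h2 : N < 2 ^ (j + 1) := Nat.lt_pow_succ_log_self (by norm_num) N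
  have hj16 : 16 ≤ j := by
    rw [hj]
    exact (Nat.le_log_iff_pow_le (by norm_num) hN0).2 (by simpa using hN)
  refine ⟨_, h.mono _ _ _ _ _ le_rfl ?_ (block h hj16 hM (blocks h h0 j hj16) h1 h2.le)⟩
  have h3 := mul_le_mul_of_nonneg_left w_16 hM
  have h4 := mul_nonneg hM (w_nonneg j)
  nlinarith

end Pool.Agent.Helper66.OC
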